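import Pool.Agent.H267.QZ.Alg
import Pool.Agent.TH456.TM.Close
import Pool.Agent.TH550.NRZ.Unif
import Pool.Agent.V11210.NA.One
import Pool.Agent.V11133.ZM.Meas

/-!
# Quadratic near relations between `ζ(3)` and `π ^ 4`

Adapted from `Pool.Agent.H267.QZ.Main` (`ζ(2)` replaced by `π ^ 4`).
-/

set_option autoImplicit false

namespace Pool.Agent.V11133.QP

open Polynomial Pool.Agent.TH456.TM Pool.Agent.H267.QZ

/-- `ζ(3)` -/
noncomputable def zetaThree : ℝ := ∑' n : ℕ, 1 / ((n : ℝ) + 1) ^ 3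

/-- `P(π ^ 4, ζ(3))` -/
noncomputable def valuePi (P : ℤ[X][X]) : ℝ := (P.map (aeval (Real.pi ^ 4)).toRingHom).eval zetaThree

lemma valuePi_mul (P Q : ℤ[X][X]) : valuePi (P * Q) = valuePi P * valuePi Q := by
  rw [valuePi, valuePi, valuePi, Polynomial.map_mul, eval_mul]

lemma valuePi_lin (a b d : ℤ) : valuePi (lin a b d) = a + b * Real.pi ^ 4 + d * zetaThree := by
  simp [valuePi, lin]

lemma valuePi_complex (P : ℤ[X][X]) :
    P.eval₂ (σx ((Real.pi ^ 4 : ℝ) : ℂ)) (zetaThree : ℂ) = ((valuePi P : ℝ) : ℂ) := by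
  rw [valuePi, eval_map]
  have h1 := Polynomial.hom_eval₂ P (aeval (Real.pi ^ 4)).toRingHom Complex.ofRealHom zetaThree
  have h2 : Complex.ofRealHom.comp (aeval (Real.pi ^ 4) : ℤ[X] →ₐ[ℤ] ℝ).toRingHom =
      σx ((Real.pi ^ 4 : ℝ) : ℂ) := by
    apply Polynomial.ringHom_ext
    · intro a
      simp [σx]
    · simp [σx]
  rw [h2] at h1
  exact h1.symm

lemma measT_pi4 : MeasT ((Real.pi ^ 4 : ℝ) : ℂ) := by
  have h1 := measT_pow measT_pi 4 (by norm_num)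
  have e2 : ((Real.pi ^ 4 : ℝ) : ℂ) = (Real.pi : ℂ) ^ 4 := by
    push_cast
    ring
  rw [e2]
  exact h1

/-- the measure for `1, π ^ 4, ζ(3)`; the size of the constant coefficient does not matter -/
lemma m145 : ∃ c : ℝ, 0 < c ∧ ∀ (a b d : ℤ) (H : ℝ), 1 ≤ H → ¬ (a = 0 ∧ b = 0 ∧ d = 0) →
    |(b : ℝ)| ≤ H → |(d : ℝ)| ≤ H → c * H ^ (-145 : ℝ) ≤ |a + b * Real.pi ^ 4 + d * zetaThree| := by
  obtain ⟨c₁, hc₁, h₁⟩ := Pool.Agent.V11133.ZM.pi_d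
  obtain ⟨c₂, hc₂, h₂'⟩ := Pool.Agent.W170.Z3.Z_main
  have h₂ := Pool.Agent.TH647.NR.lin_of_exp (∑' n : ℕ, 1 / ((n : ℝ) + 1) ^ 3) (542 / 100) (by norm_num) c₂ hc₂
    (fun p q hq => h₂' p q hq)
  refine ⟨min (min c₁ c₂) 1, by positivity, fun a b d H hH hne hb hd => ?_⟩
  have hH0 : 0 < H := by linarith
  have hp : 0 < H ^ (-145 : ℝ) := by positivity
  have k1 : min (min c₁ c₂) 1 * H ^ (-145 : ℝ) ≤ c₁ * H ^ (-145 : ℝ) :=
    mul_le_mul_of_nonneg_right ((min_le_left _ _).trans (min_le_left _ _)) hp.le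
  have k2 : min (min c₁ c₂) 1 * H ^ (-145 : ℝ) ≤ c₂ * H ^ (-145 : ℝ) :=
    mul_le_mul_of_nonneg_right ((min_le_left _ _).trans (min_le_right _ _)) hp.le
  have k3 : min (min c₁ c₂) 1 * H ^ (-145 : ℝ) ≤ 1 * H ^ (-145 : ℝ) :=
    mul_le_mul_of_nonneg_right (min_le_right _ _) hp.le
  by_cases hb0 : b = 0
  · subst hb0
    by_cases hd0 : d = 0
    · subst hd0
      have ha : a ≠ 0 := fun h => hne ⟨h, rfl, rfl⟩
      have h3 : H ^ (-145 : ℝ) ≤ 1 := Real.rpow_le_one_of_one_le_of_nonpos hH (by norm_num)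
      have h4 : (1 : ℝ) ≤ |(a : ℝ)| := by exact_mod_cast Int.one_le_abs ha
      have e : |(a : ℝ) + ((0 : ℤ) : ℝ) * Real.pi ^ 4 + ((0 : ℤ) : ℝ) * zetaThree| = |(a : ℝ)| := by simp
      rw [e]
      linarith
    · have h3 := h₂ a d hd0 H hH hd
      have e : |(a : ℝ) + ((0 : ℤ) : ℝ) * Real.pi ^ 4 + (d : ℝ) * zetaThree| =
          |(a : ℝ) + d * (∑' n : ℕ, 1 / ((n : ℝ) + 1) ^ 3)| := by
        rw [Int.cast_zero, zero_mul, add_zero]
        rfl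
      rw [e]
      refine (k2.trans (mul_le_mul_of_nonneg_left ?_ hc₂.le)).trans h3
      exact Real.rpow_le_rpow_of_exponent_le hH (by norm_num)
  · have h3 := h₁ a d b hb0 H hd hb
    have e3 : Pool.Agent.H337R2.zr 3 = zetaThree := rfl
    rw [e3] at h3
    have e4 : c₁ / H ^ 145 = c₁ * H ^ (-145 : ℝ) := by
      rw [Real.rpow_neg hH0.le, show (145 : ℝ) = ((145 : ℕ) : ℝ) by norm_num, Real.rpow_natCast,
        ← div_eq_mul_inv]
    rw [e4] at h3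
    have e5 : (a : ℝ) + b * Real.pi ^ 4 + d * zetaThree = a + d * zetaThree + b * Real.pi ^ 4 := by ring
    rw [e5]
    exact k1.trans h3

/-- products of two linear forms are not small -/
lemma lin_low : ∃ c : ℝ, 0 < c ∧ ∀ (a b d a' b' d' : ℤ) (H : ℝ), 1 ≤ H → lin a b d * lin a' b' d' ≠ 0 →
    (∀ i j, |(((lin a b d * lin a' b' d').coeff j).coeff i : ℝ)| ≤ H) →
    c * H ^ (-290 : ℝ) ≤ |valuePi (lin a b d * lin a' b' d')| := by
  obtain ⟨c, hc, h⟩ := m145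
  refine ⟨c ^ 2, by positivity, fun a b d a' b' d' H hH hne hs => ?_⟩
  have hH0 : 0 < H := by linarith
  have s1 := sizes a b d a' b' d' H hne hs
  have s2 := sizes a' b' d' a b d H (by rwa [mul_comm]) (by rwa [mul_comm])
  have n1 : ¬ (a = 0 ∧ b = 0 ∧ d = 0) := by
    rintro ⟨rfl, rfl, rfl⟩
    apply hne
    simp [lin]
  have n2 : ¬ (a' = 0 ∧ b' = 0 ∧ d' = 0) := by
    rintro ⟨rfl, rfl, rfl⟩
    apply hne
    simp [lin]
  have k1 : c * H ^ (-145 : ℝ) ≤ |valuePi (lin a b d)| := by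
    rw [valuePi_lin]
    exact h a b d H hH n1 s1.1 s1.2
  have k2 : c * H ^ (-145 : ℝ) ≤ |valuePi (lin a' b' d')| := by
    rw [valuePi_lin]
    exact h a' b' d' H hH n2 s2.1 s2.2
  rw [valuePi_mul, abs_mul]
  have e : c ^ 2 * H ^ (-290 : ℝ) = (c * H ^ (-145 : ℝ)) * (c * H ^ (-145 : ℝ)) := by
    have : (-290 : ℝ) = -145 + -145 := by norm_num
    rw [this, Real.rpow_add hH0]
    ring
  rw [e]
  exact mul_le_mul k1 k2 (by positivity) (abs_nonneg _)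

/-- one irreducible polynomial at every scale, and all near relations of total degree at most two are
its integer multiples -/
lemma core (D : ℕ) : ∃ κ c : ℝ, 0 < κ ∧ 0 < c ∧ ∀ H : ℝ, 1 ≤ H → ∃ F : ℤ[X][X], Irreducible F ∧
    (∀ Q : ℤ[X][X], Q.natDegree ≤ D → (∀ j, (Q.coeff j).natDegree ≤ D) →
      (∀ i j, |((Q.coeff j).coeff i : ℝ)| ≤ H) → |valuePi Q| < c * H ^ (-κ) → F ∣ Q) ∧
    ∀ P : ℤ[X][X], P ≠ 0 → Tot2 P → (∀ i j, |((P.coeff j).coeff i : ℝ)| ≤ H) →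
      |valuePi P| < c * H ^ (-κ) → ∃ a : ℤ, a ≠ 0 ∧ P = C (C a) * F := by
  obtain ⟨κ₁, hκ₁, h1⟩ := Pool.Agent.V11210.NA.principal ((Real.pi ^ 4 : ℝ) : ℂ) measT_pi4 (max D 2)
  obtain ⟨c₁, hc₁, h1⟩ := h1 ‖(zetaThree : ℂ)‖
  obtain ⟨c₂, hc₂, h2⟩ := lin_low
  refine ⟨max κ₁ 290, min c₁ c₂, lt_max_of_lt_left hκ₁, lt_min hc₁ hc₂, fun H hH => ?_⟩
  have hH0 : 0 < H := by linarith
  obtain ⟨F, hF1, hF2, hF3⟩ := h1 (zetaThree : ℂ) le_rfl H hH
  have hpow1 : H ^ (-(max κ₁ 290)) ≤ H ^ (-κ₁) :=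
    Real.rpow_le_rpow_of_exponent_le hH (neg_le_neg (le_max_left _ _))
  have hpow2 : H ^ (-(max κ₁ 290)) ≤ H ^ (-290 : ℝ) :=
    Real.rpow_le_rpow_of_exponent_le hH (neg_le_neg (le_max_right _ _))
  have le1 : min c₁ c₂ * H ^ (-(max κ₁ 290)) ≤ c₁ * H ^ (-κ₁) :=
    mul_le_mul (min_le_left _ _) hpow1 (by positivity) hc₁.le
  have le2 : min c₁ c₂ * H ^ (-(max κ₁ 290)) ≤ c₂ * H ^ (-290 : ℝ) :=
    mul_le_mul (min_le_right _ _) hpow2 (by positivity) hc₂.le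
  have dv : ∀ Q : ℤ[X][X], Q.natDegree ≤ max D 2 → (∀ j, (Q.coeff j).natDegree ≤ max D 2) →
      (∀ i j, |((Q.coeff j).coeff i : ℝ)| ≤ H) →
      |valuePi Q| < min c₁ c₂ * H ^ (-(max κ₁ 290)) → F ∣ Q := by
    intro Q g1 g2 g3 g4
    refine hF3 Q g1 g2 (fun j i => g3 i j) ?_
    rw [valuePi_complex, Complex.norm_real, Real.norm_eq_abs]
    exact g4.trans_le le1
  refine ⟨F, hF1, fun Q g1 g2 g3 g4 => dv Q (g1.trans (le_max_left _ _))
    (fun j => (g2 j).trans (le_max_left _ _)) g3 g4, fun P hP hT hs hv => ?_⟩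
  have hd := dv P (hT.nat.trans (le_max_right _ _)) (fun j => by
    rcases Nat.lt_or_ge 2 j with hj | hj
    · rw [coeff_eq_zero_of_natDegree_lt (lt_of_le_of_lt hT.nat hj), natDegree_zero]
      exact Nat.zero_le _
    · exact ((hT.coeff j hj).trans (Nat.sub_le _ _)).trans (le_max_right _ _)) hs hv
  rcases dich F P hF2 hd hP hT with h5 | ⟨a, b, d, a', b', d', e⟩
  · exact h5
  · exfalso
    rw [e] at hP hs hv
    have := h2 a b d a' b' d' H hH hP hs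
    linarith

end Pool.Agent.V11133.QP
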